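import Pool.Agent.H41.HZ.Stm

/-!
# Project HZ, module ANA: the function `ψ`
-/

set_option autoImplicit false

namespace Pool.Agent.H12.HZ

open MeasureTheory Filter Topology
open Pool.Agent.H41.HZ

/-- comparison of the lower and upper limits up to a factor which tends to one -/
theorem lim_le {ι : Type*} {F : Filter ι} [F.NeBot] {u v c : ι → ℝ} (hc : Tendsto c F (𝓝 1))
    (h : ∀ᶠ i in F, 0 ≤ c i ∧ u i ≤ c i * v i) :
    liminf (fun i => ((u i : ℝ) : EReal)) F ≤ liminf (fun i => ((v i : ℝ) : EReal)) F ∧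
      limsup (fun i => ((u i : ℝ) : EReal)) F ≤ limsup (fun i => ((v i : ℝ) : EReal)) F := by
  have key : ∀ z' z : ℝ, z' < z → ∀ᶠ i in F, v i < z' → u i ≤ z := by
    intro z' z hz
    have h1 : Tendsto (fun i => c i * z') F (𝓝 (1 * z')) := hc.mul_const z'
    rw [one_mul] at h1
    filter_upwards [h, h1.eventually (gt_mem_nhds hz)] with i h2 h3 h4
    have h5 : c i * v i ≤ c i * z' := mul_le_mul_of_nonneg_left h4.le h2.1
    linarith [h2.2]
  constructor
  · rw [← EReal.le_of_forall_lt_iff_le]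
    intro z hz
    obtain ⟨z', h1, h2⟩ := EReal.lt_iff_exists_real_btwn.1 hz
    have h3 := frequently_lt_of_liminf_lt (by isBoundedDefault) h1
    refine liminf_le_of_frequently_le ?_ (by isBoundedDefault)
    refine (h3.and_eventually (key z' z (by exact_mod_cast h2))).mono fun i hi => ?_
    exact_mod_cast hi.2 (by exact_mod_cast hi.1)
  · rw [← EReal.le_of_forall_lt_iff_le]
    intro z hz
    obtain ⟨z', h1, h2⟩ := EReal.lt_iff_exists_real_btwn.1 hz
    have h3 := eventually_lt_of_limsup_lt h1 (by isBoundedDefault)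
    refine limsup_le_of_le (by isBoundedDefault) ?_
    filter_upwards [h3, key z' z (by exact_mod_cast h2)] with i h4 h5
    exact_mod_cast h5 (by exact_mod_cast h4)

variable {Λ : ℝ → ℝ} {ψ : ℕ → ℝ}

theorem top (h : Scale Λ) : Tendsto Λ atTop atTop := by
  refine tendsto_atTop_mono' atTop ?_ Real.tendsto_log_atTop
  filter_upwards [h.light.eventually_ge_atTop 1, eventually_gt_atTop 1] with t h1 h2
  have h3 := Real.log_pos h2
  rwa [le_div_iff₀ h3, one_mul] at h1

theorem exi (h : Scale Λ) (g : ℕ) (hg : 1 ≤ g) : ∃ L : ℝ, 0 < L ∧ Λ (g / L) = L := by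
  have hg1 : (1 : ℝ) ≤ g := by exact_mod_cast hg
  obtain ⟨t, ht1, ht2⟩ := (((top h).eventually_ge_atTop 1).and (eventually_ge_atTop (g : ℝ))).exists
  have ht0 : 0 < t := by linarith
  have hL0 : 0 < (g : ℝ) / t := by positivity
  have hL1 : (g : ℝ) / t ≤ 1 := by rwa [div_le_one ht0]
  have hle : (g : ℝ) / t ≤ max (g : ℝ) (Λ 1) := hL1.trans (hg1.trans (le_max_left _ _))
  have hcont : ContinuousOn (fun L : ℝ => L - Λ (g / L)) (Set.Icc ((g : ℝ) / t) (max (g : ℝ) (Λ 1))) := by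
    refine continuousOn_id.sub (h.cont.comp_continuousOn (continuousOn_const.div continuousOn_id ?_))
    intro L hL
    exact (hL0.trans_le hL.1).ne'
  have hiv := intermediate_value_Icc hle hcont
  have h0 : (0 : ℝ) ∈ Set.Icc ((g : ℝ) / t - Λ (g / (g / t))) (max (g : ℝ) (Λ 1) - Λ (g / max (g : ℝ) (Λ 1))) := by
    constructor
    · have e : (g : ℝ) / (g / t) = t := by
        field_simp
      rw [e]
      linarith
    · have h1 : (g : ℝ) / max (g : ℝ) (Λ 1) ≤ 1 := by
        rw [div_le_one (by positivity)]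
        exact le_max_left _ _
      have h2 := h.mono h1
      have h3 := le_max_right (g : ℝ) (Λ 1)
      linarith
  obtain ⟨L, hL, hL2⟩ := hiv h0
  refine ⟨L, hL0.trans_le hL.1, ?_⟩
  have h3 : L - Λ (g / L) = 0 := hL2
  linarith

theorem up (h : Scale Λ) (hψ : IsPsi Λ ψ) (g : ℕ) (L : ℝ) (hg : 1 ≤ g) (hL : 0 < L)
    (hh : Λ (g / L) ≤ L) : ψ g ≤ L := by
  by_contra hc
  push Not at hc
  have h1 := h.mono (div_le_div_of_nonneg_left (Nat.cast_nonneg g) hL hc.le)
  rw [(hψ g hg).2] at h1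
  linarith

theorem lo (h : Scale Λ) (hψ : IsPsi Λ ψ) (g : ℕ) (L : ℝ) (hg : 1 ≤ g) (_ : 0 < L)
    (hh : L ≤ Λ (g / L)) : L ≤ ψ g := by
  by_contra hc
  push Not at hc
  have h1 := h.mono (div_le_div_of_nonneg_left (Nat.cast_nonneg g) (hψ g hg).1 hc.le)
  rw [(hψ g hg).2] at h1
  linarith

theorem psi_top (h : Scale Λ) (hψ : IsPsi Λ ψ) : Tendsto ψ atTop atTop := by
  rw [tendsto_atTop]
  intro b
  have hM : 0 < max b 1 := lt_max_of_lt_right one_pos
  have h1 : Tendsto (fun g : ℕ => Λ ((g : ℝ) / max b 1)) atTop atTop :=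
    (top h).comp (tendsto_natCast_atTop_atTop.atTop_div_const hM)
  filter_upwards [h1.eventually_ge_atTop (max b 1), eventually_ge_atTop 1] with g h2 h3
  exact (le_max_left _ _).trans (lo h hψ g _ h3 hM h2)

theorem quot_top (h : Scale Λ) (hψ : IsPsi Λ ψ) : Tendsto (fun g : ℕ => (g : ℝ) / ψ g) atTop atTop := by
  rw [tendsto_atTop]
  intro b
  filter_upwards [(psi_top h hψ).eventually_gt_atTop (Λ b), eventually_ge_atTop 1] with g h2 h3
  by_contra hc
  push Not at hc
  have h4 := h.mono hc.le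
  rw [(hψ g h3).2] at h4
  linarith

theorem log_top (h : Scale Λ) (hψ : IsPsi Λ ψ) :
    Tendsto (fun g : ℕ => ψ g / Real.log g) atTop atTop := by
  rw [tendsto_atTop]
  intro b
  obtain ⟨C, hC⟩ : ∃ C : ℝ, C = max b 1 := ⟨_, rfl⟩
  have hC0 : 0 < C := by rw [hC]; exact lt_max_of_lt_right one_pos
  have hsq : Tendsto (fun g : ℕ => √(g : ℝ)) atTop atTop :=
    Real.tendsto_sqrt_atTop.comp tendsto_natCast_atTop_atTop
  have h1 := (h.light.comp hsq).eventually_ge_atTop (2 * C)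
  have h2 : ∀ᶠ g : ℕ in atTop, C * Real.log g ≤ √(g : ℝ) := by
    have h3 : Tendsto (fun x : ℝ => Real.log x / x ^ (1 / 2 : ℝ)) atTop (𝓝 0) :=
      (isLittleO_log_rpow_atTop (by norm_num)).tendsto_div_nhds_zero
    have h4 := (h3.comp tendsto_natCast_atTop_atTop).eventually (gt_mem_nhds (show (0 : ℝ) < 1 / C by positivity))
    filter_upwards [h4, eventually_ge_atTop 1] with g h5 h6
    have h7 : (1 : ℝ) ≤ g := by exact_mod_cast h6
    have h8 : 0 < √(g : ℝ) := by positivity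
    simp only [Function.comp, ← Real.sqrt_eq_rpow] at h5
    rw [div_lt_div_iff₀ h8 hC0, one_mul] at h5
    linarith
  filter_upwards [h1, h2, eventually_ge_atTop 2] with g h3 h4 h5
  have h6 : (2 : ℝ) ≤ g := by exact_mod_cast h5
  have hlog : 0 < Real.log g := Real.log_pos (by linarith)
  have h8 : 0 < √(g : ℝ) := by positivity
  have h9 : 1 < √(g : ℝ) := by
    rw [Real.lt_sqrt (by norm_num)]
    linarith
  have hlog2 : 0 < Real.log (√(g : ℝ)) := Real.log_pos h9
  simp only [Function.comp] at h3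
  rw [le_div_iff₀ hlog2, Real.log_sqrt (by linarith)] at h3
  have h10 : C * Real.log g ≤ ψ g := by
    refine lo h hψ g _ (by omega) (by positivity) ?_
    have h11 : √(g : ℝ) ≤ (g : ℝ) / (C * Real.log g) := by
      rw [le_div_iff₀ (by positivity)]
      calc √(g : ℝ) * (C * Real.log g) ≤ √(g : ℝ) * √(g : ℝ) := mul_le_mul_of_nonneg_left h4 h8.le
        _ = g := Real.mul_self_sqrt (by linarith)
    have h12 := h.mono h11
    linarith
  rw [le_div_iff₀ hlog]
  have h13 : b * Real.log g ≤ C * Real.log g := by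
    refine mul_le_mul_of_nonneg_right ?_ hlog.le
    rw [hC]
    exact le_max_left _ _
  linarith

theorem prod_top (h : Scale Λ) : Tendsto (fun t : ℝ => t * Λ t) atTop atTop :=
  tendsto_id.atTop_mul_atTop₀ (top h)

theorem comp_eq (hψ : IsPsi Λ ψ) (g : ℕ) (hg : 1 ≤ g) :
    √(Λ ((g : ℝ) / ψ g) / ((g : ℝ) / ψ g)) = ψ g / √(g : ℝ) := by
  obtain ⟨h1, h2⟩ := hψ g hg
  have hg0 : (0 : ℝ) < g := by exact_mod_cast hg
  rw [h2]
  have e : ψ g / ((g : ℝ) / ψ g) = ψ g ^ 2 / g := by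
    field_simp
  rw [e, Real.sqrt_div (sq_nonneg _), Real.sqrt_sq h1.le]

/-- **Module ANA.** -/
theorem ana : S_ANA := by
  intro Λ h
  refine ⟨?_, fun ψ hψ => ⟨fun g L => up h hψ g L, fun g L => lo h hψ g L, psi_top h hψ,
    quot_top h hψ, log_top h hψ, ?_, ?_⟩⟩
  · choose f hf using fun (g : ℕ) (hg : 1 ≤ g) => exi h g hg
    refine ⟨fun g => if hg : 1 ≤ g then f g hg else 0, fun g hg => ?_⟩
    simp only [dif_pos hg]
    exact hf g hg
  · apply le_antisymm
    · have hG : Tendsto (fun t : ℝ => ⌊t * Λ t⌋₊) atTop atTop :=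
        tendsto_nat_floor_atTop.comp (prod_top h)
      have h1 : liminf (fun g : ℕ => ((ψ g / √(g : ℝ) : ℝ) : EReal)) atTop ≤
          liminf (fun t : ℝ => ((ψ ⌊t * Λ t⌋₊ / √((⌊t * Λ t⌋₊ : ℕ) : ℝ) : ℝ) : EReal)) atTop := by
        have h2 := liminf_le_liminf_of_le hG (u := fun g : ℕ => ((ψ g / √(g : ℝ) : ℝ) : EReal))
          (by isBoundedDefault) (by isBoundedDefault)
        exact h2
      refine h1.trans (lim_le (c := fun t : ℝ => √(t * Λ t / (⌊t * Λ t⌋₊ : ℕ))) ?_ ?_).1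
      · have h2 : Tendsto (fun t : ℝ => (((⌊t * Λ t⌋₊ : ℕ) : ℝ) / (t * Λ t))⁻¹) atTop (𝓝 1⁻¹) :=
          (tendsto_nat_floor_div_atTop.comp (prod_top h)).inv₀ one_ne_zero
        have h3 : Tendsto (fun t : ℝ => √((((⌊t * Λ t⌋₊ : ℕ) : ℝ) / (t * Λ t))⁻¹)) atTop (𝓝 √(1⁻¹)) :=
          h2.sqrt
        rw [inv_one, Real.sqrt_one] at h3
        refine h3.congr fun t => ?_
        rw [inv_div]
      · filter_upwards [hG.eventually_ge_atTop 1, eventually_gt_atTop 0,
          (top h).eventually_gt_atTop 0] with t h2 h3 h4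
        refine ⟨Real.sqrt_nonneg _, ?_⟩
        have hG0 : (0 : ℝ) < (⌊t * Λ t⌋₊ : ℕ) := by exact_mod_cast h2
        have h5 : ψ ⌊t * Λ t⌋₊ ≤ Λ t := by
          refine up h hψ _ _ h2 h4 (h.mono ?_)
          rw [div_le_iff₀ h4]
          exact Nat.floor_le (by positivity)
        rw [← Real.sqrt_mul (by positivity)]
        have e : t * Λ t / ((⌊t * Λ t⌋₊ : ℕ) : ℝ) * (Λ t / t) = Λ t ^ 2 / ((⌊t * Λ t⌋₊ : ℕ) : ℝ) := by
          field_simp
        rw [e, Real.sqrt_div (sq_nonneg _), Real.sqrt_sq h4.le]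
        exact div_le_div_of_nonneg_right h5 (Real.sqrt_nonneg _)
    · have h2 : liminf (fun t : ℝ => ((√(Λ t / t) : ℝ) : EReal)) atTop ≤
          liminf (fun g : ℕ => ((√(Λ ((g : ℝ) / ψ g) / ((g : ℝ) / ψ g)) : ℝ) : EReal)) atTop :=
        liminf_le_liminf_of_le (quot_top h hψ) (u := fun t : ℝ => ((√(Λ t / t) : ℝ) : EReal))
          (by isBoundedDefault) (by isBoundedDefault)
      have h3 : liminf (fun g : ℕ => ((√(Λ ((g : ℝ) / ψ g) / ((g : ℝ) / ψ g)) : ℝ) : EReal)) atTop =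
          liminf (fun g : ℕ => ((ψ g / √(g : ℝ) : ℝ) : EReal)) atTop := by
        refine liminf_congr ?_
        filter_upwards [eventually_ge_atTop 1] with g hg
        rw [comp_eq hψ g hg]
      exact h2.trans h3.le
  · apply le_antisymm
    · have h2 : limsup (fun g : ℕ => ((√(Λ ((g : ℝ) / ψ g) / ((g : ℝ) / ψ g)) : ℝ) : EReal)) atTop ≤
          limsup (fun t : ℝ => ((√(Λ t / t) : ℝ) : EReal)) atTop :=
        limsup_le_limsup_of_le (quot_top h hψ) (u := fun t : ℝ => ((√(Λ t / t) : ℝ) : EReal))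
          (by isBoundedDefault) (by isBoundedDefault)
      have h3 : limsup (fun g : ℕ => ((√(Λ ((g : ℝ) / ψ g) / ((g : ℝ) / ψ g)) : ℝ) : EReal)) atTop =
          limsup (fun g : ℕ => ((ψ g / √(g : ℝ) : ℝ) : EReal)) atTop := by
        refine limsup_congr ?_
        filter_upwards [eventually_ge_atTop 1] with g hg
        rw [comp_eq hψ g hg]
      exact h3.ge.trans h2
    · have hG : Tendsto (fun t : ℝ => ⌈t * Λ t⌉₊) atTop atTop :=
        tendsto_nat_ceil_atTop.comp (prod_top h)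
      have h1 : limsup (fun t : ℝ => ((ψ ⌈t * Λ t⌉₊ / √((⌈t * Λ t⌉₊ : ℕ) : ℝ) : ℝ) : EReal)) atTop ≤
          limsup (fun g : ℕ => ((ψ g / √(g : ℝ) : ℝ) : EReal)) atTop := by
        have h2 := limsup_le_limsup_of_le hG (u := fun g : ℕ => ((ψ g / √(g : ℝ) : ℝ) : EReal))
          (by isBoundedDefault) (by isBoundedDefault)
        exact h2
      refine le_trans (lim_le (c := fun t : ℝ => √((⌈t * Λ t⌉₊ : ℕ) / (t * Λ t))) ?_ ?_).2 h1
      · have h2 : Tendsto (fun t : ℝ => (((⌈t * Λ t⌉₊ : ℕ) : ℝ) / (t * Λ t))) atTop (𝓝 1) :=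
          tendsto_nat_ceil_div_atTop.comp (prod_top h)
        have h3 := h2.sqrt
        rwa [Real.sqrt_one] at h3
      · filter_upwards [hG.eventually_ge_atTop 1, eventually_gt_atTop 0,
          (top h).eventually_gt_atTop 0] with t h2 h3 h4
        refine ⟨Real.sqrt_nonneg _, ?_⟩
        have hG0 : (0 : ℝ) < (⌈t * Λ t⌉₊ : ℕ) := by exact_mod_cast h2
        have hx : 0 < t * Λ t := by positivity
        have h5 : Λ t ≤ ψ ⌈t * Λ t⌉₊ := by
          refine lo h hψ _ _ h2 h4 (h.mono ?_)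
          rw [le_div_iff₀ h4]
          exact Nat.le_ceil _
        have e : √(Λ t / t) = √(((⌈t * Λ t⌉₊ : ℕ) : ℝ) / (t * Λ t)) *
            (Λ t / √((⌈t * Λ t⌉₊ : ℕ) : ℝ)) := by
          have e1 : Λ t / √((⌈t * Λ t⌉₊ : ℕ) : ℝ) = √(Λ t ^ 2 / ((⌈t * Λ t⌉₊ : ℕ) : ℝ)) := by
            rw [Real.sqrt_div (sq_nonneg _), Real.sqrt_sq h4.le]
          rw [e1, ← Real.sqrt_mul (by positivity)]
          congr 1
          field_simp
        rw [e]
        refine mul_le_mul_of_nonneg_left ?_ (Real.sqrt_nonneg _)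
        exact div_le_div_of_nonneg_right h5 (Real.sqrt_nonneg _)

end Pool.Agent.H12.HZ
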